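import Pool.Agent.Helper93.TLE.StB

/-!
# Project TLE, module Core2: the core statement at level 25
-/

set_option autoImplicit false

namespace Pool.Agent.Helper99.TLE

open Pool.Agent.Helper14.CV (Homog EqC act Tl StFar StFex)
open Pool.Agent.Helper28.WK (Tw evw)
open Pool.Agent.Helper4.TL Pool.Agent.Helper93.TLE

private theorem Tw_congr (ls : List ℕ) (hls : OkE 5 ls) {G H : ℤ → ℤ → ℂ} (h : EqC G H) :
    EqC (Tw 2 ls G) (Tw 2 ls H) := by
  induction ls with
  | nil => exact h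
  | cons l ls ih =>
    exact (ih fun x hx => hls x (List.mem_cons_of_mem _ hx)).Tl
      (hls l List.mem_cons_self).1.pos 2

private theorem evLE_apply (G : ℤ → ℤ → ℂ) (ls : List ℕ) (hls : OkE 5 ls) :
    evLE 5 G ls = evw 2 ls G := if_pos hls

private theorem evLE_apply' (G : ℤ → ℤ → ℂ) (ls : List ℕ) (hls : ¬ OkE 5 ls) :
    evLE 5 G ls = 0 := if_neg hls

private theorem evLE_congr {G H : ℤ → ℤ → ℂ} (h : EqC G H) : evLE 5 G = evLE 5 H := by
  funext ls
  by_cases hls : OkE 5 ls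
  · rw [evLE_apply _ _ hls, evLE_apply _ _ hls]
    exact (Tw_congr ls hls h).diff (Or.inl one_ne_zero) (Or.inr one_ne_zero)
  · rw [evLE_apply' _ _ hls, evLE_apply' _ _ hls]

/-- The symbols of level 25 with `W = -1`, `* = 1`. -/
private def PV (K : ℤ → ℤ → ℂ) : Prop := SymE 5 0 2 K ∧
  EqC (act 0 (-1) (((5 : ℕ) : ℤ) ^ 2) 0 K) (-K) ∧ EqC (act (-1) 0 0 1 K) K

private theorem PV.add {K H : ℤ → ℤ → ℂ} (h : PV K) (h' : PV H) : PV (K + H) := by
  obtain ⟨a1, a2, a3⟩ := h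
  obtain ⟨b1, b2, b3⟩ := h'
  refine ⟨SymE.add a1 b1, ?_, a3.add b3⟩
  rw [neg_add]
  exact a2.add b2

private theorem PV.smul (s : ℂ) {K : ℤ → ℤ → ℂ} (h : PV K) : PV (s • K) := by
  obtain ⟨a1, a2, a3⟩ := h
  refine ⟨SymE.smul s a1, ?_, a3.smul s⟩
  rw [← smul_neg]
  exact a2.smul s

/-- Every symbol of level 25 has the values at words of one in `PV`. -/
private theorem proj_PV (hAvg : SEAvg) (hEv : SEEv) (G : ℤ → ℤ → ℂ) (hG : SymE 5 0 2 G) :
    ∃ K : ℤ → ℤ → ℂ, PV K ∧ evLE 5 K = evLE 5 G := by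
  have h5 : (5 : ℕ).Prime := by norm_num
  have h52 : (5 : ℕ) ≠ 2 := by norm_num
  set N : ℤ := ((5 : ℕ) : ℤ) ^ 2 with hN
  have hN0 : N ≠ 0 := by rw [hN]; norm_num
  have hW : ∀ G : ℤ → ℤ → ℂ, SymE 5 0 2 G → SymE 5 0 2 (act 0 (-1) N 0 G) ∧ SymE 5 0 2 (act (-1) 0 0 1 G) := by
    intro G hG
    obtain ⟨-, -, -, h4, h5'⟩ := hAvg 5 h5 h52 2 G le_rfl hG
    exact ⟨h4, h5'⟩
  have eW : ∀ G : ℤ → ℤ → ℂ, SymE 5 0 2 G → evLE 5 (act 0 (-1) N 0 G) = -evLE 5 G ∧
      evLE 5 (act (-1) 0 0 1 G) = evLE 5 G := by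
    intro G hG
    constructor
    · funext ls
      by_cases hls : OkE 5 ls
      · rw [Pi.neg_apply, evLE_apply _ _ hls, evLE_apply _ _ hls]
        exact (hEv 5 h5 h52 ℂ _ 2 G hG ls hls).1
      · rw [Pi.neg_apply, evLE_apply' _ _ hls, evLE_apply' _ _ hls, neg_zero]
    · funext ls
      by_cases hls : OkE 5 ls
      · rw [evLE_apply _ _ hls, evLE_apply _ _ hls]
        exact (hEv 5 h5 h52 ℂ _ 2 G hG ls hls).2
      · rw [evLE_apply' _ _ hls, evLE_apply' _ _ hls]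
  set H : ℤ → ℤ → ℂ := (1 / 2 : ℂ) • (G + (-1 : ℂ) • act 0 (-1) N 0 G) with hH
  have hHs : SymE 5 0 2 H := SymE.smul _ (SymE.add hG (SymE.smul _ (hW G hG).1))
  have hHe : evLE 5 H = evLE 5 G := by
    rw [hH, map_smul, map_add, map_smul, (eW G hG).1]
    funext ls
    simp only [Pi.smul_apply, Pi.add_apply, Pi.neg_apply, smul_eq_mul]
    ring
  have hHW : ∀ p q : ℤ, (p ≠ 0 ∨ q ≠ 0) → H (0 * p + -1 * q) (N * p + 0 * q) = -H p q := by
    intro p q hpq
    simp only [hH, Pi.smul_apply, Pi.add_apply, act, smul_eq_mul]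
    have e := hG.1 (-N) p q (neg_ne_zero.2 hN0) hpq
    have e1 : 0 * (0 * p + -1 * q) + -1 * (N * p + 0 * q) = -N * p := by ring
    have e2 : N * (0 * p + -1 * q) + 0 * (N * p + 0 * q) = -N * q := by ring
    rw [e1, e2, e]
    ring
  set K : ℤ → ℤ → ℂ := (1 / 2 : ℂ) • (H + act (-1) 0 0 1 H) with hK
  have hKs : SymE 5 0 2 K := SymE.smul _ (SymE.add hHs (hW H hHs).2)
  have hKe : evLE 5 K = evLE 5 H := by
    rw [hK, map_smul, map_add, (eW H hHs).2]
    funext ls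
    simp only [Pi.smul_apply, Pi.add_apply, smul_eq_mul]
    ring
  refine ⟨K, ⟨hKs, ?_, ?_⟩, hKe.trans hHe⟩
  · refine ⟨0, fun p q hpq => ?_⟩
    have h1 := hHW p q hpq
    have h2 := hHW (-p) q (by simpa using hpq)
    have e := hHs.1 (-1) (0 * -p + -1 * q) (N * -p + 0 * q) (by norm_num) (by
      rcases hpq with h | h
      · exact Or.inr (by simpa using ⟨hN0, h⟩)
      · exact Or.inl (by simpa using h))
    simp only [hK, Pi.smul_apply, Pi.add_apply, Pi.neg_apply, act, smul_eq_mul]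
    have e1 : -1 * (0 * p + -1 * q) + 0 * (N * p + 0 * q) = -1 * (0 * -p + -1 * q) := by ring
    have e2 : 0 * (0 * p + -1 * q) + 1 * (N * p + 0 * q) = -1 * (N * -p + 0 * q) := by ring
    have e3 : -1 * p + 0 * q = -p := by ring
    have e4 : 0 * p + 1 * q = q := by ring
    rw [e1, e2, e, h2, h1, e3, e4]
    ring
  · refine ⟨0, fun p q _ => ?_⟩
    simp only [hK, Pi.smul_apply, Pi.add_apply, act, smul_eq_mul]
    have e3 : -1 * p + 0 * q = -p := by ring
    have e4 : 0 * p + 1 * q = q := by ring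
    have e5 : -1 * -p + 0 * q = p := by ring
    have e6 : 0 * -p + 1 * q = q := by ring
    rw [e3, e4, e5, e6]
    ring

/-- **Module Core2.** -/
theorem hCore2 : SECore2 := by
  intro dd hAvg hEv hBs hLB G hG hGW hGs hGe
  obtain ⟨L, hL, hLi⟩ := hLB 2 le_rfl
  have hD : DDE 2 dd 2 = 2 := by
    unfold DDE
    rw [Finset.Ico_self, Finset.sum_empty, Nat.add_zero]
  have hGP : PV G := ⟨hG, hGW, hGs⟩
  have hGev : evLE 5 G = 0 := by
    funext ls
    by_cases hls : OkE 5 ls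
    · rw [evLE_apply _ _ hls]
      exact hGe ls hls
    · rw [evLE_apply' _ _ hls]
      rfl
  -- the two independent symbols
  have hK : ∀ k : Fin (DDE 2 dd 2), ∃ K : ℤ → ℤ → ℂ, PV K ∧ evLE 5 K = evLE 5 (L k) :=
    fun k => proj_PV hAvg hEv (L k) (hL k)
  choose K hKP hKe using hK
  have hLi' : LinearIndependent ℂ (fun k => evLE 5 (K k)) := by
    have e : (fun k => evLE 5 (K k)) = fun k => evLE 5 (L k) := funext hKe
    rw [e]
    exact hLi
  let k0 : Fin (DDE 2 dd 2) := ⟨0, by rw [hD]; norm_num⟩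
  let k1 : Fin (DDE 2 dd 2) := ⟨1, by rw [hD]; norm_num⟩
  have hk : k0 ≠ k1 := by
    intro h
    have := congrArg Fin.val h
    simp only [k0, k1] at this
    omega
  let a : (ℤ → ℤ → ℂ) → (Fin 2 → ℂ) := fun K => ![K 1 0 - K 1 5, K 1 5 - K 2 5]
  let v : Fin 3 → (Fin 2 → ℂ) := ![a (K k0), a (K k1), a G]
  have hdep : ¬ LinearIndependent ℂ v := by
    intro h
    have := h.fintype_card_le_finrank
    simp at this
  rw [Fintype.not_linearIndependent_iff] at hdep
  obtain ⟨c, hc, i, hi⟩ := hdep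
  rw [Fin.sum_univ_three] at hc
  have c0 := congrFun hc 0
  have c1 := congrFun hc 1
  simp only [v, a, Matrix.cons_val_zero, Matrix.cons_val_one, Matrix.cons_val, Pi.add_apply, Pi.smul_apply,
    smul_eq_mul, Pi.zero_apply] at c0 c1
  set T : ℤ → ℤ → ℂ := c 0 • K k0 + c 1 • K k1 + c 2 • G with hT
  have hTP : PV T := ((PV.smul _ (hKP k0)).add (PV.smul _ (hKP k1))).add (PV.smul _ hGP)
  have hTc : EqC T 0 := by
    refine hBs T hTP.1 ?_ hTP.2.2 ?_ ?_
    · have := hTP.2.1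
      rwa [Nat.cast_ofNat] at this
    · simp only [hT, Pi.add_apply, Pi.smul_apply, smul_eq_mul]
      linear_combination c0
    · simp only [hT, Pi.add_apply, Pi.smul_apply, smul_eq_mul]
      linear_combination c1
  have hTe : evLE 5 T = 0 := by
    rw [evLE_congr hTc]
    exact map_zero (evLE 5)
  rw [hT, map_add, map_add, map_smul, map_smul, map_smul, hGev, smul_zero, add_zero] at hTe
  have hpair : c 0 = 0 ∧ c 1 = 0 := by
    have hp := hLi'.comp ![k0, k1] (by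
      intro x y hxy
      fin_cases x <;> fin_cases y
      · rfl
      · exact absurd hxy hk
      · exact absurd hxy.symm hk
      · rfl)
    have e : (fun k => evLE 5 (K k)) ∘ ![k0, k1] = ![evLE 5 (K k0), evLE 5 (K k1)] := by
      funext j
      fin_cases j <;> rfl
    rw [e, LinearIndependent.pair_iff] at hp
    exact hp _ _ hTe
  obtain ⟨z0, z1⟩ := hpair
  have z2 : c 2 ≠ 0 := by
    intro h
    apply hi
    fin_cases i
    · exact z0
    · exact z1
    · exact h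
  rw [z0, z1, zero_mul, zero_mul, zero_add, zero_add] at c0 c1
  have d0 : G 1 0 - G 1 5 = 0 := (mul_eq_zero.1 c0).resolve_left z2
  have d1 : G 1 5 - G 2 5 = 0 := (mul_eq_zero.1 c1).resolve_left z2
  refine hBs G hG ?_ hGs (sub_eq_zero.1 d0) (sub_eq_zero.1 d1)
  rwa [Nat.cast_ofNat] at hGW

end Pool.Agent.Helper99.TLE
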